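import Pool.Agent.KDD.Stmts
import Pool.Agent.Helper26_KDS.GLN

set_option autoImplicit false

/-!
# KDD, row GLE
-/

namespace Pool.Agent.KDD.H18

open Polynomial NumberField H58Q Pool.Agent.SZT Pool.Agent.SZT.B Pool.Agent.KDT Pool.Agent.KDS
open Pool.Agent.KDS.H26

theorem lev_eq (i : ℕ) : (lev i : ℝ) = 2 * (4 ^ i - 1) / 3 := by
  induction i with
  | zero => norm_num [lev]
  | succ n ih =>
    have : lev (n + 1) = 4 * lev n + 2 := rfl
    rw [this]
    push_cast
    rw [ih]
    ring

theorem sum_lev (i : ℕ) : ∑ a : Fin i, 2 * (4 : ℝ) ^ (a : ℕ) = lev i := by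
  rw [Fin.sum_univ_eq_sum_range (fun a => 2 * (4 : ℝ) ^ a) i]
  induction i with
  | zero => norm_num [lev]
  | succ n ih =>
    have : lev (n + 1) = 4 * lev n + 2 := rfl
    rw [Finset.sum_range_succ, ih, this]
    push_cast
    rw [lev_eq]
    ring

/-- **Row GLE.** -/
theorem gle (hPne : PneStatement) (hNdt : NdtStatement) (hUnt : UntStatement)
    (hShe : SheStatement) (hDpb : DpbStatement) (hDvb : DvbStatement) (hKqu : KquStatement) :
    GleStatement := by
  intro K _ _ v f n m₀ i M I A B U W k Γ hf h5 hsq hcf hn hval hI hm₀ hG hH h0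
  have hdom : IsDomain (Q K f) := isDomain (g := 2) (by rw [h5])
  have h2 : (2 : K) ≠ 0 := two_ne_zero
  have hvl : ∀ x : K, v x = v.val x := fun _ => rfl
  obtain ⟨Ω, _, w, φ, θ, hw, hroot, hNd, hb⟩ := hPne K v f n m₀ hf h5 hsq hcf hn hval hm₀ I hI
  have hFm : (f.map φ).Monic := hf.map φ
  have hF5 : (f.map φ).natDegree = 5 := by rw [natDegree_map]; exact h5
  obtain ⟨-, -, -, hq, hdup⟩ := hShe Ω (f.map φ) θ hFm hF5
  have hq0 : ∀ j, ∀ a ≤ i, quart (f.map φ) (fun l => φ (kum f (A j a) (B j a) l)) = 0 := by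
    intro j a ha
    have hg := (hH j a ha).1.1
    rw [← (hKqu.2 K Ω φ f 0 0).2, hKqu.1 K f _ _ hf h5 hg.toMum hg.two, map_zero]
  have hdet : (Matrix.of fun (j q : QI i) => ∏ a : Fin i, mon (q a).1
      (uni (shc (f.map φ) θ) (fun l => φ (kum f (A j a) (B j a) l)))).det =
      φ (Matrix.of fun (j q : QI i) => ∏ a : Fin i, mon (q a).1
        (kum f (A j a) (B j a))).det := by
    rw [hUnt Ω (shc (f.map φ) θ) i (fun j a l => φ (kum f (A j a) (B j a) l))]
    exact det_emb φ i (fun j a => kum f (A j a) (B j a))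
  have hlog : Real.log (v (discr f)) ≤ 0 := by
    apply Real.log_nonpos (apply_nonneg v.val _)
    have h1 : (1 : ℝ) ≤ (Ideal.absNorm v.maximalIdeal.asIdeal : ℝ) ^ n := by
      apply one_le_pow₀
      have h3 : Ideal.absNorm v.maximalIdeal.asIdeal ≠ 0 := by
        intro h
        rw [h] at hval
        simp [hn.ne'] at hval
      exact_mod_cast Nat.one_le_iff_ne_zero.mpr h3
    have h2' : 0 ≤ v (discr f) := apply_nonneg v.val _
    exact (le_mul_of_one_le_right h2' h1).trans (le_of_eq hval)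
  obtain ⟨ϑ, hϑ⟩ : ∃ ϑ : ℝ, ϑ = -(1 / 2) * Real.log (v (discr f)) / 4 ^ i := ⟨_, rfl⟩
  have key := hNdt Ω w ((f.map φ).comp (X + C θ)) (-(1 / 2) * Real.log (v (discr f))) hNd i Γ hG
    (fun j a => uni (shc (f.map φ) θ) (fun l => φ (kum f (A j a) (B j a) l)))
    (fun j a => φ (dup f (kum f (A j a) (B j a)) 0))
    (fun j a => Lv v f (A j a) (U j a) M + 4 ^ a * ϑ)
    (fun j a ha => by rw [hq]; exact hq0 j a ha)
    (fun j a ha => by
      obtain ⟨hVG, hGen, hcl⟩ := hH j a ha.le
      obtain ⟨hVG', hGen', hcl'⟩ := hH j (a + 1) ha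
      have hc2 : SameCl (MI f (A j (a + 1)) (B j (a + 1))) (MI f (A j a) (B j a) ^ 2) := by
        have h3 : SameCl (MI f (A j a) (B j a) ^ 2) (I ^ (m₀ * (2 ^ (a + 1) * k j))) := by
          have h4 := gl_mul hcl hcl
          rw [← pow_two, ← pow_add] at h4
          have h5' : m₀ * (2 ^ a * k j) + m₀ * (2 ^ a * k j) = m₀ * (2 ^ (a + 1) * k j) := by
            ring
          rwa [h5'] at h4
        exact gl_trans hcl' (gl_symm h3)
      obtain ⟨mm, V, hDbl, hId, hd1, hd2, hd3⟩ := hDpb K f (A j a) (B j a) (A j (a + 1))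
        (B j (a + 1)) h2 hf h5 hsq hVG.1 hVG'.1.toMum hVG'.1.two hc2
      refine ⟨?_, ?_, ?_⟩
      · rwa [Ne, map_eq_zero]
      · rw [hdup _ (hq0 j a ha.le), ← uni_smul]
        congr 1
        funext l
        rw [dup_map, hd3 l, map_mul]
        rfl
      · have hL := hDvb K f (A j a) (B j a) (A j (a + 1)) (B j (a + 1)) V (U j a) (W j a)
          (U j (a + 1)) (W j (a + 1)) mm M h2 hf h5 hsq hVG.1 hVG'.1 hDbl hId hGen hGen' v.val
        have hne : mm * resultant (A j a) (2 * B j a) ≠ 0 := by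
          intro h
          rw [h] at hd1
          exact hd2 (by rw [hd1]; ring)
        have hm0 : v.val mm ≠ 0 := by
          rw [Ne, AbsoluteValue.eq_zero]
          exact left_ne_zero_of_mul hne
        have hr0 : v.val (resultant (A j a) (2 * B j a)) ≠ 0 := by
          rw [Ne, AbsoluteValue.eq_zero]
          exact right_ne_zero_of_mul hne
        have hlog : Real.log (w (φ (dup f (kum f (A j a) (B j a)) 0))) =
            2 * Real.log (v.val mm) + 2 * Real.log (v.val (resultant (A j a) (2 * B j a))) := by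
          rw [hw, hvl, hd1, map_pow, map_mul, Real.log_pow, Real.log_mul hm0 hr0]
          push_cast
          ring
        rw [hlog]
        change Lv v f (A j (a + 1)) (U j (a + 1)) M + 4 ^ (a + 1) * ϑ =
          4 * (Lv v f (A j a) (U j a) M + 4 ^ a * ϑ) - _
        have hL' : Lv v f (A j (a + 1)) (U j (a + 1)) M = 4 * Lv v f (A j a) (U j a) M -
            2 * Real.log (v.val mm) - 2 * Real.log (v.val (resultant (A j a) (2 * B j a))) := by
          refine hL.trans ?_
          change 4 * Lv v f (A j a) (U j a) M - _ - _ = 4 * Lv v f (A j a) (U j a) M - _ - _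
          ring
        rw [hL', pow_succ]
        ring)
    (fun j l => by
      have h3 := hb i (k j) M (A j) (B j) (U j) (W j) (fun a ha => hH j a ha) l
      refine h3.trans (le_of_eq ?_)
      congr 1
      rw [hϑ]
      ring)
    (by
      rw [hdet, Ne, map_eq_zero]
      exact h0)
  rw [hdet, hw] at key
  refine key.trans ?_
  have hsum : ∑ j : QI i, ∑ a : Fin i, 2 * (Lv v f (A j a) (U j a) M + 4 ^ (a : ℕ) * ϑ) =
      ∑ j : QI i, ∑ a : Fin i, 2 * Lv v f (A j a) (U j a) M + 10 ^ i * (lev i * ϑ) := by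
    have h3 : ∀ j : QI i, ∑ a : Fin i, 2 * (Lv v f (A j a) (U j a) M + 4 ^ (a : ℕ) * ϑ) =
        ∑ a : Fin i, 2 * Lv v f (A j a) (U j a) M + lev i * ϑ := by
      intro j
      rw [← sum_lev, Finset.sum_mul, ← Finset.sum_add_distrib]
      refine Finset.sum_congr rfl fun a _ => ?_
      ring
    rw [Finset.sum_congr rfl fun j _ => h3 j, Finset.sum_add_distrib, Finset.sum_const,
      Finset.card_univ, card_QI, nsmul_eq_mul]
    push_cast
    ring
  rw [hsum]
  have h4 : (lev i : ℝ) * ϑ ≤ -(1 / 3) * Real.log (v (discr f)) := by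
    rw [lev_eq, hϑ]
    have h5' : (0 : ℝ) < 4 ^ i := by positivity
    rw [← sub_nonneg]
    have h6 : -(1 / 3) * Real.log (v (discr f)) - 2 * ((4 : ℝ) ^ i - 1) / 3 *
        (-(1 / 2) * Real.log (v (discr f)) / 4 ^ i) = -(1 / 3) * Real.log (v (discr f)) / 4 ^ i := by
      field_simp
      ring
    rw [h6]
    apply div_nonneg _ h5'.le
    linarith
  have h7 : (10 : ℝ) ^ i * (lev i * ϑ) ≤ 10 ^ i * (-(1 / 3) * Real.log (v (discr f))) :=
    mul_le_mul_of_nonneg_left h4 (by positivity)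
  linarith

end Pool.Agent.KDD.H18
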