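import Pool.Agent.Helper18_KDD.Final0
import Pool.Agent.Helper18_KDD.GLE

set_option autoImplicit false

/-!
# Squad KDD (MP_160b6c_nt): the theorem
-/

namespace Pool.Agent.KDD.H18

open Pool.Agent.SZT Pool.Agent.KDT Pool.Agent.KDT.H18 Pool.Agent.KDS Pool.Agent.KDS.H18

theorem t_gle : GleStatement := gle t_pne s_ndt s_unt KDS.H18.she s_dpb s_dvb k_kqu

theorem final : KddStatement := t_kdf t_gle

end Pool.Agent.KDD.H18
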