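import Pool.Agent.Helper18_KDS.Final
import Pool.Agent.Helper68_KDD.TND
import Pool.Agent.Helper68_KDD.NCD
import Pool.Agent.Helper68_KDD.TII
import Pool.Agent.Helper68_KDD.TAD
import Pool.Agent.Helper11_KDD.TCH
import Pool.Agent.Helper87_KDD.TIU
import Pool.Agent.Helper75_KDD.TKA
import Pool.Agent.Helper6_KDD.VGR
import Pool.Agent.Helper47_KDD.LPO
import Pool.Agent.Helper25_KDD.QDI
import Pool.Agent.Helper35_KDD.PLG
import Pool.Agent.Helper92_KDD.PNE
import Pool.Agent.Helper35_KDD.GLT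
import Pool.Agent.Helper81_KDD.KDF
import Pool.Agent.Helper91_KDD.RTC
import Pool.Agent.Helper19_KDD.NSW
import Pool.Agent.Helper17_KDD.BAS

set_option autoImplicit false

/-!
# Squad KDD (MP_160b6c_nt): assembly
-/

namespace Pool.Agent.KDD.H18

open Pool.Agent.SZT Pool.Agent.KDT Pool.Agent.KDT.H18 Pool.Agent.KDS Pool.Agent.KDS.H18

theorem t_tnd : TndStatement := KDD.H68.tnd
theorem t_tch : TchStatement := KDD.H11.tch t_tnd
theorem t_tiu : TiuStatement := KDD.H87.tiu t_tnd t_tch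
theorem t_tii : TiiStatement := KDD.H68.tii b_pmu b_lip b_exl t_tnd t_tch t_tiu
theorem t_tad : TadStatement := KDD.H68.tad b_slo b_pmu b_exl t_tnd t_tch b_gau t_tiu t_tii
theorem t_tka : TkaStatement := KDD.H75.tka t_tch b_inv b_nrm (SZT.H82.rep SZT.H76.rex) t_tad
theorem t_vgr : VgrStatement := KDD.H6.vgr
theorem t_lpo : LpoStatement := KDD.H47.lpo t_tnd t_tch b_pmu KDS.H18.she
theorem t_qdi : QdiStatement := KDD.H25.qdi
theorem t_ncd : NcdStatement := KDD.H68.ncd
theorem t_plg : PlgStatement := KDD.H35.plg k_lfa k_gmp a_aout a_dsr b_cpl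

theorem t_rtc : RtcStatement := KDD.H91.rtc a_dsr
theorem t_nsw : NswStatement := KDD.H19.nsw t_tnd t_tch t_vgr
theorem t_bas : BasStatement := KDD.H17.bas t_qdi KDS.H18.she

theorem t_pne : PneStatement :=
  KDD.H92.pne t_rtc t_tka t_nsw t_lpo t_bas t_ncd t_plg s_dpb s_dvb k_kqu k_gmp b_cpl b_sqr

theorem t_glt (gle : GleStatement) : GltStatement :=
  KDD.H35.glt s_glf s_gli gle a_pfs a_qvn a_dsh

theorem t_kdf (gle : GleStatement) : KddStatement :=
  KDD.H81.kdf (t_glt gle) s_cns s_mvp (s_ins KDS.H60.qtd) s_exc s_dpb k_lmn zero a_pel a_rex a_dsh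
    a_qvn a_gpr a_ded

end Pool.Agent.KDD.H18
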