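import Pool.Agent.Helper89_KDT.ZZFI

/-!
# Squad KDD (MP_160b6c_nt): the zero estimate with a pointwise exception

The exceptional case of the zero estimate for the cyclic group generated by the class `c` of `I`: a
multiple `M c`, `1 <= M <= B`, lies in a thin subgroup. Proof of `zzfi` (helper89) with one more step at
the end.
-/

set_option autoImplicit false

namespace Pool.Agent.KDD.H18

open Polynomial H58Q Pool.Agent.SZT Pool.Agent.KDT Pool.Agent.KDT.Z Pool.Agent.KDT.H89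

/-- Some power `I^M`, `1 ≤ M ≤ B`, of the ideal `I` has its class in a thin subgroup. -/
def ThinPt (B : ℕ) {K : Type} [Field K] (f : K[X]) (I : Ideal (Q K f)) : Prop :=
  ∃ (F : Type) (_ : Field F) (_ : IsAlgClosed F) (φ : K →+* F) (Y : UBT.OddCurve F)
    (_ : IsDedekindDomain (Q F Y.f)) (Γ : Subgroup Y.Jac) (Ψ : MvPolynomial (Fin 2) F),
    Y.f = f.map φ ∧ Infinite Γ ∧ Ψ ≠ 0 ∧ Ψ.totalDegree ≤ B ∧
    (∀ (A B' : F[X]) (h : MI Y.f A B' ∈ nonZeroDivisors (Ideal (Q F Y.f))), Mum Y.f A B' →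
      A.natDegree = 2 → ClassGroup.mk0 ⟨MI Y.f A B', h⟩ ∈ Γ →
      MvPolynomial.eval ![-A.coeff 1, A.coeff 0] Ψ = 0) ∧
    ∃ (M : ℕ) (A C : K[X])
      (h : MI Y.f (A.map φ) (C.map φ) ∈ nonZeroDivisors (Ideal (Q F Y.f))),
      0 < M ∧ M ≤ B ∧ Mum f A C ∧ A.natDegree ≤ 2 ∧ SameCl (MI f A C) (I ^ M) ∧
      ClassGroup.mk0 ⟨MI Y.f (A.map φ) (C.map φ), h⟩ ∈ Γ

/-- **ZERO** with the pointwise exception. -/
def ZeroPStatement : Prop :=
  ∀ e : ℕ, ∃ B : ℕ, ∀ (K : Type) [Field K] [CharZero K] (f : K[X]), f.Monic → f.natDegree = 5 →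
    Squarefree f → ∀ P : MvPolynomial (Fin 4) K, P.totalDegree ≤ e →
    (∃ (E : Type) (_ : Field E) (φ : K →+* E) (A B : E[X]), Mum (f.map φ) A B ∧
      A.natDegree = 2 ∧ (A.coeff 1) ^ 2 ≠ 4 * A.coeff 0 ∧
      MvPolynomial.eval₂ φ (kum (f.map φ) A B) P ≠ 0) →
    ∀ (I : Ideal (Q K f)) (N : ℕ), I ≠ ⊥ → 0 < N → (∀ j : ℕ, (I ^ j).IsPrincipal ↔ N ∣ j) →
    ({j : ℕ | j < N ∧ ¬ ∃ A B : K[X], Mum f A B ∧ A.natDegree = 2 ∧
      SameCl (MI f A B) (I ^ j) ∧ MvPolynomial.eval (kum f A B) P = 0}.ncard : ℝ)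
      ≤ e * (Real.sqrt N + 1) →
    N ≤ B ∨ ThinPt B f I

theorem thinPt_mono {B B' : ℕ} (h : B ≤ B') {K : Type} [Field K] {f : K[X]} {I : Ideal (Q K f)}
    (hT : ThinPt B f I) : ThinPt B' f I := by
  obtain ⟨F, h1, h2, φ, Y, h3, Γ, Ψ, h4, h5, h6, h7, h8, M, A, C, h9, h10, h11, h12⟩ := hT
  exact ⟨F, h1, h2, φ, Y, h3, Γ, Ψ, h4, h5, h6, h7.trans h, h8, M, A, C, h9, h10, h11.trans h,
    h12⟩

theorem zeroP (hR : RexStatement) (h1 : NrmStatement) (h2 : TdoStatement) (h3 : JkeStatement) (h4 : FunStatement)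
    (h5 : StbStatement) (h6 : StcStatement) (h7 : StdStatement) (h8 : SbgStatement)
    (h9 : StfStatement) (h10 : StgStatement) (h11 : UBT.DedStmt) (_h12 : EmbStatement) :
    ZeroPStatement := by
  intro e
  obtain ⟨C0, hC0⟩ := h1 (3 * e)
  set n : ℕ := max C0 (2 * e) with hn
  obtain ⟨N0, hN0⟩ := h5 n
  obtain ⟨m1, N1, hN1⟩ := h6 n (8 * (n + 1))
  obtain ⟨b, hb⟩ := h9 n
  obtain ⟨BG, hBG⟩ := h10 n
  refine ⟨max (4 * m1) (max (max N0 N1) (max (4 * m1 * b) BG)), ?_⟩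
  intro K _ _ f hf h5' hsf P hP hpt I N hI hN hord hexc
  by_cases hNB : N ≤ max (max N0 N1) (max (4 * m1 * b) BG)
  · exact Or.inl (le_trans hNB (le_max_right _ _))
  right
  have hNB := not_le.mp hNB
  have hN_0 : N0 ≤ N := le_of_lt (lt_of_le_of_lt (le_trans (le_max_left _ _) (le_max_left _ _)) hNB)
  have hN_1 : N1 ≤ N := le_of_lt (lt_of_le_of_lt (le_trans (le_max_right _ _) (le_max_left _ _)) hNB)
  have hN_2 : 4 * m1 * b < N := lt_of_le_of_lt (le_trans (le_max_left _ _) (le_max_right _ _)) hNB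
  have hBB : BG ≤ max (4 * m1) (max (max N0 N1) (max (4 * m1 * b) BG)) :=
    le_trans (le_max_right _ _) (le_trans (le_max_right _ _) (le_max_right _ _))
  -- the plane curve
  obtain ⟨Φ0, hΦ0, hΦd, hΦz⟩ := hC0 K f hf h5' hsf (GP f P) (GP_deg f P e hP) (by
    obtain ⟨E, hE, φ, A, B, hm, hA2, hdisc, hne⟩ := hpt
    refine ⟨E, hE, φ, vec A B, on_vec hm hA2, ?_, ?_⟩
    · rw [vec0, vec1, neg_sq]
      exact hdisc
    · rw [GP_eval, pA_vec hm.monic hA2, pB_vec hm.deg hA2 hm.monic]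
      exact hne)
  -- the fields
  set k : Type := AlgebraicClosure K with hk
  set φ : K →+* k := algebraMap K k with hφ
  set fk : k[X] := f.map φ with hfk
  obtain ⟨U, fU, aU, hUc, hUt, hUne⟩ := h2 k
  set g : U[X] := fk.map (algebraMap k U) with hg
  have hchk : CharZero k := charZero_of_injective_ringHom φ.injective
  have hfkm : fk.Monic := hf.map φ
  have hfk5 : fk.natDegree = 5 := by
    rw [hfk, Polynomial.natDegree_map]
    exact h5'
  have hfks : Squarefree fk := sqf_map φ f hsf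
  have henv : Env k U fk g :=
    { kc := inferInstance
      oc := hUc
      ch := hchk
      td := hUt
      ne := hUne
      mo := hfkm
      d5 := hfk5
      sf := hfks
      gm := hg }
  have hodd : Fact (Odd f.natDegree) := ⟨by rw [h5']; decide⟩
  have hoddk : Fact (Odd fk.natDegree) := ⟨by rw [hfk5]; decide⟩
  have hded : IsDedekindDomain (Q K f) := h11 K f two_ne_zero hsf
  have hdedk : IsDedekindDomain (Q k fk) := h11 k fk two_ne_zero hfks
  obtain ⟨J, hJ, th, cl, act, Jk, ι, hJK, hιi, hιr, hιc⟩ := h3 k U fk g henv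
  obtain ⟨m, hmi, hmm⟩ := h4 K k φ f fk hfk hf h5' hsf
  -- the class
  set c : J := ι (m (clI f I)) with hc
  have hcj : ∀ j : ℕ, j • c = ι (m (clI f (I ^ j))) := by
    intro j
    rw [clI_pow f hI, map_nsmul, map_nsmul]
  have hco : ∀ j : ℕ, j • c = 0 ↔ N ∣ j := by
    intro j
    rw [hcj, map_eq_zero_iff ι hιi, map_eq_zero_iff m hmi, ← hord j]
    exact clI_zero f (pow_ne_zero j hI)
  obtain ⟨hcard, hΓf, hΓj⟩ := cyc c N hN hco
  set Γ : AddSubgroup J := AddSubgroup.zmultiples c with hΓ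
  have hιJ : ∀ x, ι x ∈ Jk := fun x => by
    rw [← hιr]
    exact ⟨x, rfl⟩
  have hΓJ : Γ ≤ Jk := by
    rw [hΓ, AddSubgroup.zmultiples_le]
    exact hιJ _
  -- the exceptional set
  set Φk : MvPolynomial (Fin 2) k := MvPolynomial.map φ Φ0 with hΦk
  have hΦk0 : Φk ≠ 0 := by
    intro h
    exact hΦ0 (MvPolynomial.map_injective φ φ.injective (by rw [← hΦk, h, map_zero]))
  have hΦkd : Φk.totalDegree ≤ n := by
    refine le_trans ?_ (le_trans hΦd (le_max_left _ _))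
    rw [MvPolynomial.totalDegree, MvPolynomial.totalDegree]
    exact Finset.sup_mono (MvPolynomial.support_map_subset _ _)
  have hex : {γ : J | γ ∈ Γ ∧ ¬ ∃ t : Fin 4 → k, On fk t ∧ γ = cl (emb U t) ∧
      Zr Φk (t 0) (t 1)}.ncard ≤ n * (Nat.sqrt (Nat.card Γ) + 1) := by
    rw [hcard]
    set S1 : Set J := {γ : J | γ ∈ Γ ∧ ¬ ∃ t : Fin 4 → k, On fk t ∧ γ = cl (emb U t) ∧
      Zr Φk (t 0) (t 1)} with hS1
    set S2 : Set ℕ := {j : ℕ | j < N ∧ ¬ ∃ A B : K[X], Mum f A B ∧ A.natDegree = 2 ∧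
      SameCl (MI f A B) (I ^ j) ∧ MvPolynomial.eval (kum f A B) P = 0} with hS2
    have hS2f : S2.Finite := (Set.finite_lt_nat N).subset fun j hj => hj.1
    have hsub : S1 ⊆ (fun j : ℕ => j • c) '' S2 := by
      rintro γ ⟨hγ, hγn⟩
      obtain ⟨j, hjN, hj⟩ := hΓj γ hγ
      refine ⟨j, ⟨hjN, ?_⟩, hj.symm⟩
      rintro ⟨A, B, hm, hA2, hs, hev⟩
      apply hγn
      have hmk := mum_map φ hm
      have hA2k : (A.map φ).natDegree = 2 := by rw [Polynomial.natDegree_map, hA2]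
      have hon : On fk (vec (A.map φ) (B.map φ)) := on_vec hmk hA2k
      refine ⟨vec (A.map φ) (B.map φ), hon, ?_, ?_⟩
      · rw [← hιc _ hon, clC, pA_vec hmk.monic hA2k, pB_vec hmk.deg hA2k hmk.monic, ← hmm,
          clI_same f (MI_ne f A B) (pow_ne_zero j hI) hs, hj, hcj]
      · have hz := hΦz k φ (vec (A.map φ) (B.map φ)) hon (by
          rw [GP_eval, pA_vec hmk.monic hA2k, pB_vec hmk.deg hA2k hmk.monic]
          have e1 : kum (f.map φ) (A.map φ) (B.map φ) = fun i => φ (kum f A B i) := by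
            funext i
            exact kum_map φ f A B i
          rw [e1]
          have e2 := MvPolynomial.eval₂_comp_left φ (RingHom.id K) (kum f A B) P
          rw [MvPolynomial.eval₂_id, hev, map_zero] at e2
          rw [RingHom.comp_id] at e2
          exact e2.symm)
        rw [Zr, MvPolynomial.aeval_def, hΦk, MvPolynomial.eval₂_map]
        exact hz
    have hle : (S1.ncard : ℝ) ≤ (n : ℝ) * ((Nat.sqrt N : ℕ) + 1) := by
      have h20 : S1.ncard ≤ S2.ncard :=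
        le_trans (Set.ncard_le_ncard hsub (hS2f.image _)) (Set.ncard_image_le hS2f)
      have h21 : ((2 * e : ℕ) : ℝ) ≤ (n : ℝ) := by exact_mod_cast le_max_right _ _
      calc (S1.ncard : ℝ) ≤ (S2.ncard : ℝ) := by exact_mod_cast h20
        _ ≤ e * (Real.sqrt N + 1) := hexc
        _ ≤ ((2 * e : ℕ) : ℝ) * ((Nat.sqrt N : ℕ) + 1) := sqrt_bound e N
        _ ≤ _ := mul_le_mul_of_nonneg_right h21 (by positivity)
    exact_mod_cast hle
  -- the steps
  obtain ⟨q, Φ, S, hq, hqg, hqd, hΦi, hΦdeg, hΦq, hS, hSc⟩ := hN0 k U fk g henv J th cl act Jk hJK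
    Φk hΦk0 hΦkd Γ hΓf hΓJ (by rw [hcard]; exact hN_0) hex
  obtain ⟨Φs, T, hΦs, hTc, hT⟩ := hN1 k U fk g henv J th cl act Jk hJK q Φ hq hqg hΦi.ne_zero
    hΦdeg hΦq Γ hΓf hΓJ (by rw [hcard]; exact hN_1) S hS hSc
  have hTs := h7 k U fk g henv J th cl act Jk hJK q hq Γ hΓf hΓJ Φs T hΦs hT
  obtain ⟨-, hsbg⟩ := h8 k U fk g henv J th cl act Jk hJK
  obtain ⟨H0, hH0⟩ := hsbg q hq
  have hset : {h : J | h ∈ Γ ∧ h ∈ Stb cl act q} = ((Γ ⊓ H0 : AddSubgroup J) : Set J) := by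
    ext h
    constructor
    · rintro ⟨ha, hb'⟩
      exact ⟨ha, (hH0 h).mpr ⟨hΓJ ha, hb'⟩⟩
    · rintro ⟨ha, hb'⟩
      exact ⟨ha, ((hH0 h).mp hb').2⟩
  have hcH : Nat.card (Γ ⊓ H0 : AddSubgroup J) =
      {h : J | h ∈ Γ ∧ h ∈ Stb cl act q}.ncard := by
    rw [hset]
    rfl
  have hbH : b ≤ Nat.card (Γ ⊓ H0 : AddSubgroup J) := by
    rw [hcH]
    by_contra hlt
    have hlt := not_le.mp hlt
    rw [hcard] at hTc
    have h30 : m1 * T.card ≤ m1 * (4 * b) := Nat.mul_le_mul le_rfl (le_trans hTs (by omega))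
    have h31 : m1 * (4 * b) = 4 * m1 * b := by ring
    omega
  have hHf : Finite (Γ ⊓ H0 : AddSubgroup J) := by
    have : ((Γ ⊓ H0 : AddSubgroup J) : Set J) ⊆ (Γ : Set J) := fun x hx => hx.1
    exact Set.Finite.subset (Set.toFinite (Γ : Set J)) this
  have hinf := hb k U fk g henv J th cl act Jk hJK q Φ hq hqg hqd hΦi hΦdeg hΦq (Γ ⊓ H0) hHf
    (fun h hh => (hH0 h).mp hh.2) hbH
  obtain ⟨R, hR0, hRd, hRz⟩ := hBG k U fk g henv J th cl act Jk hJK q Φ hq hΦi.ne_zero hΦdeg hΦq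
  -- the multiple of the class
  set M : ℕ := (Γ ⊓ H0).relIndex Γ with hM
  have hMmem : M • c ∈ Γ ⊓ H0 :=
    AddSubgroup.nsmul_relIndex_mem (Γ ⊓ H0) (AddSubgroup.mem_zmultiples c)
  have hMN : Nat.card (Γ ⊓ H0 : AddSubgroup J) * M = N := by
    have h40 := AddSubgroup.relIndex_mul_relIndex (⊥ : AddSubgroup J) (Γ ⊓ H0) Γ bot_le inf_le_left
    rw [AddSubgroup.relIndex_bot_left, AddSubgroup.relIndex_bot_left, hcard] at h40
    exact h40
  have hMpos : 0 < M := by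
    rcases Nat.eq_zero_or_pos M with h | h
    · rw [h, mul_zero] at hMN
      omega
    · exact h
  have hcpos : 0 < Nat.card (Γ ⊓ H0 : AddSubgroup J) := by
    rcases Nat.eq_zero_or_pos (Nat.card (Γ ⊓ H0 : AddSubgroup J)) with h | h
    · rw [h, zero_mul] at hMN
      omega
    · exact h
  have hMle : M ≤ 4 * m1 := by
    rw [hcard] at hTc
    rw [← hcH] at hTs
    have h30 : m1 * T.card ≤ m1 * (4 * Nat.card (Γ ⊓ H0 : AddSubgroup J)) :=
      Nat.mul_le_mul le_rfl hTs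
    have h31 : Nat.card (Γ ⊓ H0 : AddSubgroup J) * M ≤
        Nat.card (Γ ⊓ H0 : AddSubgroup J) * (4 * m1) := by
      rw [hMN]
      refine le_trans hTc (le_trans h30 (le_of_eq ?_))
      ring
    exact Nat.le_of_mul_le_mul_left h31 hcpos
  have hIM : I ^ M ≠ ⊥ := pow_ne_zero M hI
  obtain ⟨A0, C0', hAC, hmAC, hdAC, hclAC⟩ := hR K f two_ne_zero hsf h5'
    (ClassGroup.mk0 ⟨I ^ M, nzd f hIM⟩)
  have hsAC : SameCl (MI f A0 C0') (I ^ M) := by
    rw [ClassGroup.mk0_eq_mk0_iff] at hclAC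
    obtain ⟨a, b', ha, hb', hab⟩ := hclAC
    exact ⟨a, b', ha, hb', hab⟩
  have hkAC : MI fk (A0.map φ) (C0'.map φ) ∈ nonZeroDivisors (Ideal (Q k fk)) :=
    nzd fk (MI_ne fk _ _)
  have hmemM : ι (Additive.ofMul (ClassGroup.mk0
      ⟨MI fk (A0.map φ) (C0'.map φ), hkAC⟩)) ∈ H0 := by
    rw [← clI_mk fk hkAC, ← hmm, clI_same f (MI_ne f A0 C0') hIM hsAC, ← hcj]
    exact hMmem.2
  -- the thin subgroup
  refine ⟨k, inferInstance, inferInstance, φ, ⟨fk, hoddk.out, hfks⟩, hdedk,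
    { carrier := {x | ι (Additive.ofMul x) ∈ H0}
      one_mem' := ?_
      mul_mem' := ?_
      inv_mem' := ?_ }, R, rfl, ?_, hR0, le_trans hRd hBB, ?_, M, A0, C0', hkAC, hMpos,
    le_trans hMle (le_max_left _ _), hmAC, hdAC, hsAC, hmemM⟩
  · intro x y hx hy
    have : ι (Additive.ofMul (x * y)) = ι (Additive.ofMul x) + ι (Additive.ofMul y) := by
      rw [ofMul_mul, map_add]
    change ι (Additive.ofMul (x * y)) ∈ H0
    rw [this]
    exact H0.add_mem hx hy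
  · change ι (Additive.ofMul 1) ∈ H0
    rw [ofMul_one, map_zero]
    exact H0.zero_mem
  · intro x hx
    change ι (Additive.ofMul x⁻¹) ∈ H0
    rw [ofMul_inv, map_neg]
    exact H0.neg_mem hx
  · -- infinite
    have hinf' : {x : ClassGroup (Q k fk) | ι (Additive.ofMul x) ∈ H0}.Infinite := by
      intro hfin
      apply hinf
      have himg : {h : J | h ∈ Jk ∧ h ∈ Stb cl act q} ⊆
          (fun x : ClassGroup (Q k fk) => ι (Additive.ofMul x)) ''
            {x : ClassGroup (Q k fk) | ι (Additive.ofMul x) ∈ H0} := by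
        rintro h ⟨ha, hb'⟩
        have ha' := ha
        rw [← hιr] at ha'
        obtain ⟨x, hx⟩ := ha'
        refine ⟨Additive.toMul x, ?_, hx⟩
        change ι x ∈ H0
        rw [hx]
        exact (hH0 h).mpr ⟨ha, hb'⟩
      exact (hfin.image _).subset himg
    exact hinf'.to_subtype
  · intro A B' h hm hA2 hmem
    have hon : On fk (vec A B') := on_vec hm hA2
    have hmem' : ι (Additive.ofMul (ClassGroup.mk0 ⟨MI fk A B', h⟩)) ∈ H0 := hmem
    rw [← clI_mk fk h] at hmem'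
    have hcl : ι (clI fk (MI fk A B')) = cl (emb U (vec A B')) := by
      rw [← hιc _ hon, clC, pA_vec hm.monic hA2, pB_vec hm.deg hA2 hm.monic]
    rw [hcl] at hmem'
    have := hRz (vec A B') hon ((hH0 _).mp hmem').2
    rwa [vec0, vec1] at this

end Pool.Agent.KDD.H18
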