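import Pool.Agent.Helper18_KDD.Final
import Pool.Agent.Helper18_KDD.KDFP

set_option autoImplicit false

/-!
# Squad KDD (MP_160b6c_nt): the theorem with a pointwise exception
-/

namespace Pool.Agent.KDD.H18

open Pool.Agent.SZT Pool.Agent.KDT Pool.Agent.KDT.H18 Pool.Agent.KDS Pool.Agent.KDS.H18

theorem zeroPt : ZeroPStatement := zeroP a_rex z_nrm z_tdo z_jke z_fun z_stb z_stc z_std z_sbg
  z_stf z_stg a_ded z_emb

theorem finalP : KddPStatement :=
  kdfP (t_glt t_gle) s_cns s_mvp (s_ins KDS.H60.qtd) s_exc s_dpb k_lmn zeroPt a_pel a_rex a_dsh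
    a_qvn a_gpr a_ded

end Pool.Agent.KDD.H18
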